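import Mathlib
import Pool.Agent.V11181.TCR.Cover

open Finset Filter

namespace Pool.Agent.Results.MP_5b687f_co.LinearEqualsGeneral

open Pool.Agent.V11181.TCR

universe u

/-- The `t`-weight of a `t × n` matrix: the number of its nonzero columns. -/
def wt {F : Type u} [Field F] [DecidableEq F] {t n : ℕ} (v : Matrix (Fin t) (Fin n) F) : ℕ :=
  (univ.filter (fun j => ∃ i, v i j ≠ 0)).card

/-- The `t`-th covering radius `R_t(C) = max_u min_{c ∈ C^t} wt (c - u)`. -/
noncomputable def radius {F : Type u} [Field F] [DecidableEq F] (t : ℕ) {n : ℕ}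
    (C : Set (Fin n → F)) : ℕ :=
  ⨆ v : Matrix (Fin t) (Fin n) F,
    ⨅ c : {c : Matrix (Fin t) (Fin n) F // ∀ i, c i ∈ C}, wt (c.1 - v)

/-- `k_t(n,r,q)`, the least `log_q |C|` over all codes with `R_t(C) ≤ r`. -/
noncomputable def k (F : Type u) [Field F] [Fintype F] [DecidableEq F] (t n : ℕ) (r : ℝ) : ℝ :=
  sInf {x : ℝ | ∃ C : Set (Fin n → F), C.Nonempty ∧ (radius t C : ℝ) ≤ r ∧
    x = Real.logb (Fintype.card F) (Nat.card C)}

/-- `k_t^Lin(n,r,q)`, the same over linear codes. -/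
noncomputable def kLin (F : Type u) [Field F] [Fintype F] [DecidableEq F] (t n : ℕ) (r : ℝ) :
    ℝ :=
  sInf {x : ℝ | ∃ C : Submodule F (Fin n → F), (radius t (C : Set (Fin n → F)) : ℝ) ≤ r ∧
    x = Real.logb (Fintype.card F) (Nat.card C)}

/-- `κ_t(ρ,q)` -/
noncomputable def kappa (F : Type u) [Field F] [Fintype F] [DecidableEq F] (t : ℕ) (ρ : ℝ) : ℝ :=
  liminf (fun n : ℕ => k F t n (ρ * n) / n) atTop

/-- `κ_t^Lin(ρ,q)` -/
noncomputable def kappaLin (F : Type u) [Field F] [Fintype F] [DecidableEq F] (t : ℕ) (ρ : ℝ) :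
    ℝ :=
  liminf (fun n : ℕ => kLin F t n (ρ * n) / n) atTop

section basics

variable {F : Type u} [Field F] [Fintype F] [DecidableEq F] {t n : ℕ}

omit [Fintype F] in
theorem wt_eq (v : Matrix (Fin t) (Fin n) F) : wt v = colw (fun j i => v i j) := by
  unfold wt colw
  congr 1
  ext j
  simp only [mem_filter, mem_univ, true_and, ne_eq, funext_iff, Pi.zero_apply, not_forall]

omit [Fintype F] in
theorem wt_sub (c v : Matrix (Fin t) (Fin n) F) :
    wt (c - v) = colw ((fun j i => c i j) - (fun j i => v i j)) := by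
  rw [wt_eq]
  rfl

theorem radius_le_iff (C : Set (Fin n → F)) (hC : C.Nonempty) (r : ℕ) :
    radius t C ≤ r ↔ ∀ v : Fin n → Fin t → F, ∃ c, InC C c ∧ colw (c - v) ≤ r := by
  obtain ⟨c0, hc0⟩ := hC
  have hne : Nonempty {c : Matrix (Fin t) (Fin n) F // ∀ i, c i ∈ C} :=
    ⟨⟨fun _ => c0, fun _ => hc0⟩⟩
  have hbdd : BddAbove (Set.range (fun v : Matrix (Fin t) (Fin n) F =>
      ⨅ c : {c : Matrix (Fin t) (Fin n) F // ∀ i, c i ∈ C}, wt (c.1 - v))) :=
    (Set.finite_range _).bddAbove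
  constructor
  · intro h v
    obtain ⟨V, hV⟩ : ∃ V : Matrix (Fin t) (Fin n) F, (fun j i => V i j) = v :=
      ⟨fun i j => v j i, rfl⟩
    have h1 : (⨅ c : {c : Matrix (Fin t) (Fin n) F // ∀ i, c i ∈ C}, wt (c.1 - V)) ≤ r :=
      le_trans (le_ciSup hbdd V) h
    obtain ⟨c, hc⟩ := Nat.sInf_mem (Set.range_nonempty
      (fun c : {c : Matrix (Fin t) (Fin n) F // ∀ i, c i ∈ C} => wt (c.1 - V)))
    have h3 : wt (c.1 - V) =
        (⨅ c : {c : Matrix (Fin t) (Fin n) F // ∀ i, c i ∈ C}, wt (c.1 - V)) := hc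
    have h2 : wt (c.1 - V) ≤ r := by
      rw [h3]
      exact h1
    rw [wt_sub, hV] at h2
    exact ⟨fun j i => c.1 i j, fun i => c.2 i, h2⟩
  · intro h
    apply ciSup_le'
    intro V
    obtain ⟨c, hc, hcr⟩ := h (fun j i => V i j)
    obtain ⟨c', hc'⟩ : ∃ c' : Matrix (Fin t) (Fin n) F, (fun j i => c' i j) = c :=
      ⟨fun i j => c j i, rfl⟩
    have hmem : ∀ i, c' i ∈ C := by
      intro i
      have := hc i
      rw [← hc'] at this
      exact this
    have h4 : (⨅ c : {c : Matrix (Fin t) (Fin n) F // ∀ i, c i ∈ C}, wt (c.1 - V)) ≤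
        wt (c' - V) := ciInf_le (OrderBot.bddBelow _)
      (⟨c', hmem⟩ : {c : Matrix (Fin t) (Fin n) F // ∀ i, c i ∈ C})
    refine le_trans h4 ?_
    rw [wt_sub, hc']
    exact hcr

omit [DecidableEq F] in
theorem one_lt_q : (1 : ℝ) < Fintype.card F := by exact_mod_cast Fintype.one_lt_card

omit [DecidableEq F] in
theorem logb_card_nonneg (C : Set (Fin n → F)) (hC : C.Nonempty) :
    0 ≤ Real.logb (Fintype.card F) (Nat.card C) := by
  apply Real.logb_nonneg one_lt_q
  have : Nonempty C := hC.to_subtype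
  have h : 0 < Nat.card C := Nat.card_pos
  exact_mod_cast h

omit [DecidableEq F] in
theorem logb_card_submodule (C : Submodule F (Fin n → F)) :
    Real.logb (Fintype.card F) (Nat.card C) = Module.finrank F C := by
  rw [Module.natCard_eq_pow_finrank (K := F) (V := C), Nat.card_eq_fintype_card]
  push_cast
  rw [Real.logb_pow, Real.logb_self_eq_one one_lt_q, mul_one]

theorem bdd_k (r : ℝ) : BddBelow {x : ℝ | ∃ C : Set (Fin n → F), C.Nonempty ∧
    (radius t C : ℝ) ≤ r ∧ x = Real.logb (Fintype.card F) (Nat.card C)} := by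
  refine ⟨0, ?_⟩
  rintro x ⟨C, hC, -, rfl⟩
  exact logb_card_nonneg C hC

theorem bdd_kLin (r : ℝ) : BddBelow {x : ℝ | ∃ C : Submodule F (Fin n → F),
    (radius t (C : Set (Fin n → F)) : ℝ) ≤ r ∧
    x = Real.logb (Fintype.card F) (Nat.card C)} := by
  refine ⟨0, ?_⟩
  rintro x ⟨C, -, rfl⟩
  exact logb_card_nonneg (C : Set (Fin n → F)) ⟨0, C.zero_mem⟩

theorem top_mem (r : ℝ) (hr : 0 ≤ r) : (n : ℝ) ∈ {x : ℝ | ∃ C : Submodule F (Fin n → F),
    (radius t (C : Set (Fin n → F)) : ℝ) ≤ r ∧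
    x = Real.logb (Fintype.card F) (Nat.card C)} := by
  refine ⟨⊤, ?_, ?_⟩
  · have h : radius t ((⊤ : Submodule F (Fin n → F)) : Set (Fin n → F)) ≤ 0 := by
      rw [radius_le_iff _ ⟨0, Submodule.zero_mem _⟩]
      intro v
      refine ⟨v, fun i => Submodule.mem_top, ?_⟩
      rw [sub_self]
      simp [colw]
    have h2 : radius t ((⊤ : Submodule F (Fin n → F)) : Set (Fin n → F)) = 0 := by omega
    rw [h2]
    simpa using hr
  · rw [logb_card_submodule, finrank_top, Module.finrank_fintype_fun_eq_card, Fintype.card_fin]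

theorem k_nonneg (r : ℝ) : 0 ≤ k F t n r := by
  apply Real.sInf_nonneg
  rintro x ⟨C, hC, -, rfl⟩
  exact logb_card_nonneg C hC

theorem k_le_kLin (r : ℝ) (hr : 0 ≤ r) : k F t n r ≤ kLin F t n r := by
  apply csInf_le_csInf (bdd_k r) ⟨_, top_mem r hr⟩
  rintro x ⟨C, hC, rfl⟩
  exact ⟨(C : Set (Fin n → F)), ⟨0, C.zero_mem⟩, hC, rfl⟩

theorem kLin_le (r : ℝ) (hr : 0 ≤ r) : kLin F t n r ≤ n :=
  csInf_le (bdd_kLin r) (top_mem r hr)

theorem kLin_le_k (hn : 1 ≤ n) (ht : 1 ≤ t) (r : ℝ) (hr : 0 ≤ r) :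
    kLin F t n r ≤ k F t n r + err F t n := by
  rw [← sub_le_iff_le_add]
  apply le_csInf
  · obtain ⟨C, hC, hx⟩ := top_mem (F := F) (t := t) (n := n) r hr
    exact ⟨_, (C : Set (Fin n → F)), ⟨0, C.zero_mem⟩, hC, hx⟩
  · rintro x ⟨C0, hC0, hrad, rfl⟩
    have h1 : radius t C0 ≤ ⌊r⌋₊ := Nat.le_floor hrad
    rw [radius_le_iff _ hC0] at h1
    obtain ⟨C, hC, hdim⟩ := lin_vs_general hn ht ⌊r⌋₊ C0 h1
    rw [← radius_le_iff (C : Set (Fin n → F)) ⟨0, C.zero_mem⟩] at hC
    have h2 : kLin F t n r ≤ Module.finrank F C := by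
      apply csInf_le (bdd_kLin r)
      refine ⟨C, ?_, (logb_card_submodule C).symm⟩
      exact le_trans (by exact_mod_cast hC) (Nat.floor_le hr)
    linarith

/-- the error term is `O(log n)` -/
theorem err_bound (ht : 1 ≤ t) :
    ∃ K : ℝ, 0 ≤ K ∧ ∀ n : ℕ, 1 ≤ n → err F t n ≤ K * Real.log ((n : ℝ) + 1) := by
  set q : ℝ := ((Fintype.card F : ℕ) : ℝ) with hq
  have hq1 : 1 < q := one_lt_q
  have hlq : 0 < Real.log q := Real.log_pos hq1
  have hl2 : 0 < Real.log 2 := Real.log_pos (by norm_num)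
  have htr : (0 : ℝ) < t := by exact_mod_cast (by omega : 0 < t)
  set S := Nat.card (Submodule F (Fin t → F)) with hS
  set Q := Fintype.card F ^ t with hQ
  set B : ℝ := Real.logb 2 (S * t * Real.log q + 1) with hB
  have hB0 : 0 ≤ B := Real.logb_nonneg (by norm_num) (by
    have : (0 : ℝ) ≤ S * t * Real.log q := by positivity
    linarith)
  refine ⟨2 * Q / Real.log q / t + (1 + t * (B + 1)) / Real.log 2 + t / Real.log 2,
    by positivity, ?_⟩
  intro n hn
  have hnr : (1 : ℝ) ≤ n := by exact_mod_cast hn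
  set L := Real.log ((n : ℝ) + 1) with hL
  have hL2 : Real.log 2 ≤ L := Real.log_le_log (by norm_num) (by linarith)
  have hLn : Real.log n ≤ L := Real.log_le_log (by linarith) (by linarith)
  have e1 : Real.logb q (((n : ℝ) + 1) ^ Q * (n : ℝ) ^ Q) / t ≤ 2 * Q / Real.log q / t * L := by
    rw [Real.logb_mul (by positivity) (by positivity), Real.logb_pow, Real.logb_pow,
      Real.logb, Real.logb, div_mul_eq_mul_div]
    apply div_le_div_of_nonneg_right _ htr.le
    rw [← mul_div_assoc, ← mul_div_assoc, ← add_div, div_mul_eq_mul_div]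
    apply div_le_div_of_nonneg_right _ hlq.le
    have hQ0 : (0 : ℝ) ≤ Q := Nat.cast_nonneg _
    nlinarith [mul_le_mul_of_nonneg_left hLn hQ0]
  have e2 : (1 : ℝ) + t * (B + 1) ≤ (1 + t * (B + 1)) / Real.log 2 * L := by
    rw [div_mul_eq_mul_div, le_div_iff₀ hl2]
    apply mul_le_mul_of_nonneg_left hL2
    positivity
  have e3 : (msteps S (q ^ (t * n)) : ℝ) ≤ B + L / Real.log 2 + 1 := by
    unfold msteps
    have h1 : Real.log (q ^ (t * n)) = t * n * Real.log q := by
      rw [Real.log_pow]; push_cast; ring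
    rw [h1]
    have h0 : (0 : ℝ) ≤ S * (t * n * Real.log q) := by positivity
    have h2 : 0 ≤ Real.logb 2 (S * (t * n * Real.log q) + 1) :=
      Real.logb_nonneg (by norm_num) (by linarith)
    refine (Nat.ceil_lt_add_one h2).le.trans ?_
    have h3 : Real.logb 2 (S * (t * n * Real.log q) + 1) ≤
        Real.logb 2 ((S * t * Real.log q + 1) * ((n : ℝ) + 1)) := by
      apply Real.logb_le_logb_of_le (by norm_num) (by linarith)
      have h4 : (0 : ℝ) ≤ S * t * Real.log q := by positivity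
      nlinarith
    rw [Real.logb_mul (by positivity) (by positivity)] at h3
    have h5 : Real.logb 2 ((n : ℝ) + 1) = L / Real.log 2 := rfl
    rw [h5] at h3
    linarith
  unfold err
  rw [← hq, ← hS, ← hQ]
  have e4 : (t : ℝ) * msteps S (q ^ (t * n)) ≤ t * (B + L / Real.log 2 + 1) :=
    mul_le_mul_of_nonneg_left e3 htr.le
  have e5 : (t : ℝ) * (B + L / Real.log 2 + 1) = t * (B + 1) + t / Real.log 2 * L := by
    field_simp
    ring
  have e6 : (2 * Q / Real.log q / t + (1 + t * (B + 1)) / Real.log 2 + t / Real.log 2) * L =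
      2 * Q / Real.log q / t * L + (1 + t * (B + 1)) / Real.log 2 * L + t / Real.log 2 * L := by
    ring
  rw [e6]
  linarith

end basics

/-- **Theorem.** For every `t ≥ 1`, every finite field `F` with `q` elements and every
`ρ ∈ [0,1]`, `κ_t(ρ,q) = κ_t^Lin(ρ,q)`.  Moreover the finite quantities differ by `O(log n)`,
uniformly in the radius. -/
theorem result (F : Type u) [Field F] [Fintype F] [DecidableEq F] (t : ℕ) (ht : 1 ≤ t) :
    (∀ ρ : ℝ, 0 ≤ ρ → ρ ≤ 1 → kappa F t ρ = kappaLin F t ρ) ∧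
    (∃ K : ℝ, ∀ n : ℕ, 1 ≤ n → ∀ r : ℝ, 0 ≤ r →
      k F t n r ≤ kLin F t n r ∧ kLin F t n r ≤ k F t n r + K * Real.log ((n : ℝ) + 1)) := by
  obtain ⟨K, hK0, hK⟩ := err_bound (F := F) ht
  have hfin : ∀ n : ℕ, 1 ≤ n → ∀ r : ℝ, 0 ≤ r →
      k F t n r ≤ kLin F t n r ∧ kLin F t n r ≤ k F t n r + K * Real.log ((n : ℝ) + 1) := by
    intro n hn r hr
    refine ⟨k_le_kLin r hr, (kLin_le_k hn ht r hr).trans ?_⟩
    have := hK n hn
    linarith
  refine ⟨?_, K, hfin⟩
  intro ρ hρ0 _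
  have hpos : ∀ n : ℕ, 0 ≤ ρ * (n : ℝ) := fun n => by positivity
  -- the two sequences
  set A : ℕ → ℝ := fun n => k F t n (ρ * n) / n with hA
  set B : ℕ → ℝ := fun n => kLin F t n (ρ * n) / n with hB
  have hA0 : ∀ n, 0 ≤ A n := fun n => div_nonneg (k_nonneg _) (Nat.cast_nonneg n)
  have hAB : ∀ n, A n ≤ B n := fun n =>
    div_le_div_of_nonneg_right (k_le_kLin _ (hpos n)) (Nat.cast_nonneg n)
  have hB1 : ∀ n, B n ≤ 1 := by
    intro n
    rcases Nat.eq_zero_or_pos n with h | h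
    · subst h
      simp [hB]
    · simp only [hB]
      rw [div_le_one (by exact_mod_cast h)]
      exact kLin_le _ (hpos n)
  have bddA : IsBoundedUnder (· ≥ ·) atTop A := isBoundedUnder_of ⟨0, hA0⟩
  have cobA : IsCoboundedUnder (· ≥ ·) atTop A :=
    IsBoundedUnder.isCoboundedUnder_ge
      (isBoundedUnder_of ⟨1, fun n => (hAB n).trans (hB1 n)⟩)
  have cobB : IsCoboundedUnder (· ≥ ·) atTop B :=
    IsBoundedUnder.isCoboundedUnder_ge (isBoundedUnder_of ⟨1, hB1⟩)
  have bddB : IsBoundedUnder (· ≥ ·) atTop B :=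
    isBoundedUnder_of ⟨0, fun n => (hA0 n).trans (hAB n)⟩
  apply le_antisymm
  · exact liminf_le_liminf (Eventually.of_forall hAB) bddA cobB
  · apply le_of_forall_pos_le_add
    intro ε hε
    have hlim : Tendsto (fun n : ℕ => K * (Real.log ((n : ℝ) + 1) ^ 1 /
        (1 * ((n : ℝ) + 1) + (-1)))) atTop (nhds (K * 0)) := by
      apply Tendsto.const_mul
      exact (Real.tendsto_pow_log_div_mul_add_atTop 1 (-1) 1 one_ne_zero).comp
        (tendsto_atTop_add_const_right atTop 1 tendsto_natCast_atTop_atTop)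
    rw [mul_zero] at hlim
    have hev : ∀ᶠ n : ℕ in atTop, B n ≤ A n + ε := by
      filter_upwards [hlim.eventually_lt_const hε, eventually_ge_atTop 1] with n h1 hn
      have hnr : (0 : ℝ) < n := by exact_mod_cast hn
      have h2 := (hfin n hn (ρ * n) (hpos n)).2
      have h3 : (1 : ℝ) * ((n : ℝ) + 1) + (-1) = n := by ring
      rw [h3, pow_one] at h1
      simp only [hA, hB]
      calc kLin F t n (ρ * n) / n ≤ (k F t n (ρ * n) + K * Real.log ((n : ℝ) + 1)) / n :=
            div_le_div_of_nonneg_right h2 hnr.le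
        _ = k F t n (ρ * n) / n + K * (Real.log ((n : ℝ) + 1) / n) := by
            rw [add_div, mul_div_assoc]
        _ ≤ k F t n (ρ * n) / n + ε := by linarith
    have hcobA' : IsCoboundedUnder (· ≥ ·) atTop (fun n => A n + ε) :=
      IsBoundedUnder.isCoboundedUnder_ge
        (isBoundedUnder_of ⟨1 + ε, fun n => by
          have := (hAB n).trans (hB1 n)
          linarith⟩)
    have h4 : liminf B atTop ≤ liminf (fun n => A n + ε) atTop :=
      liminf_le_liminf hev bddB hcobA'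
    rw [liminf_add_const atTop A ε cobA bddA] at h4
    exact h4

end Pool.Agent.Results.MP_5b687f_co.LinearEqualsGeneral
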